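import Mathlib
import Pool.Agent.H6.Heap

set_option autoImplicit false

namespace Pool.Agent.Results.MP_90e7d5_co.Unbounded

/-- `G` is a star-`k`-PCG: positive weights and `k` pairwise disjoint closed intervals
`[lo i, hi i]` such that distinct `u, v` are adjacent iff `w u + w v` lies in one of them. -/
def StarPCG {V : Type} (G : SimpleGraph V) (k : ℕ) : Prop :=
  ∃ (w : V → ℝ) (lo hi : Fin k → ℝ), (∀ v, 0 < w v) ∧ (∀ i, lo i ≤ hi i) ∧
    (∀ i j, i ≠ j → Disjoint (Set.Icc (lo i) (hi i)) (Set.Icc (lo j) (hi j))) ∧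
    ∀ u v, u ≠ v → (G.Adj u v ↔ ∃ i, w u + w v ∈ Set.Icc (lo i) (hi i))

open Pool.Agent.H6.Heap in
theorem result (c : ℕ) :
    ∃ (n : ℕ) (G : SimpleGraph (Fin n)), G.IsTree ∧ ∀ k ≤ c, ¬ StarPCG G k := by
  refine ⟨(2 * c + 2) ^ (c + 1) * 2 + 1, pG (par (2 * c + 2) _), heap_tree _ _ (by omega), ?_⟩
  rintro k hk ⟨w, lo, hi, -, -, -, H⟩
  obtain ⟨r, -, j, -, hj⟩ := key k (2 * c + 2) ((2 * c + 2) ^ (c + 1) * 2 + 1) (by omega) (by omega)
    (fun i => if h : i < (2 * c + 2) ^ (c + 1) * 2 + 1 then w ⟨i, h⟩ else 0) lo hi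
    (fun u v hu hv huv => by
      have := H ⟨u, hu⟩ ⟨v, hv⟩ (fun e => huv (congrArg Fin.val e))
      simp only [hu, hv, dite_true]
      rw [← this]
      simp [pG, par, huv]) c 1 le_rfl (by omega)
  have : (Finset.univ.filter fun i => hi i - lo i < hi j - lo j).card < (Finset.univ : Finset (Fin k)).card :=
    Finset.card_lt_card ⟨Finset.subset_univ _, fun h => by simpa using @h j (Finset.mem_univ j)⟩
  simp at this
  omega

end Pool.Agent.Results.MP_90e7d5_co.Unbounded
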